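import Mathlib
import Pool.Agent.H.MP_fc7d68_al.F

namespace Pool.Agent.Results.MP_fc7d68_al.Undec

open MvPolynomial

/-- a polynomial: a list of terms (integer coefficient, list of variable indices) -/
abbrev Pol := List (ℤ × List ℕ)

/-- number of variables, generators of I, number of generators of M, relations of M -/
abbrev Inp := ℕ × List Pol × ℕ × List (List Pol)

noncomputable def pol (K : Type) [Field K] (n : ℕ) (p : Pol) : MvPolynomial (Fin n) K :=
  (p.map fun t => C (t.1 : K) * (t.2.map fun j => if h : j < n then X ⟨j, h⟩ else 0).prod).sum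

noncomputable def idl (K : Type) [Field K] (x : Inp) : Ideal (MvPolynomial (Fin x.1) K) :=
  Ideal.span {f | ∃ g ∈ x.2.1, f = pol K x.1 g}

abbrev Rg (K : Type) [Field K] (x : Inp) : Type := MvPolynomial (Fin x.1) K ⧸ idl K x

noncomputable def cls (K : Type) [Field K] (x : Inp) (p : MvPolynomial (Fin x.1) K) : Rg K x :=
  Submodule.Quotient.mk p

/-- the images of the variables -/
def vars (K : Type) [Field K] (x : Inp) : Set (Rg K x) :=
  Set.range fun i => cls K x (X i)

/-- the submodule spanned by a set of rows -/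
def sp {R : Type} [CommRing R] {ι : Type} (s : Set (ι → R)) : Submodule R (ι → R) :=
  Submodule.span R s

noncomputable def rels (K : Type) [Field K] (x : Inp) :
    Submodule (Rg K x) (Fin x.2.2.1 → Rg K x) :=
  sp {v | ∃ r ∈ x.2.2.2, v = fun j : Fin x.2.2.1 => cls K x (pol K x.1 (r.getD j []))}

/-- the k-th power of the ideal generated by V times the free module on ι -/
def pw {R : Type} [CommRing R] (V : Set R) (k : ℕ) (ι : Type) : Submodule R (ι → R) :=
  Ideal.span V ^ k • ⊤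

/-- exactness of two matrices acting on row vectors -/
def Ex {R : Type} [CommRing R] {ι κ μ : Type} [Fintype κ] [Fintype μ] (A : Matrix κ ι R)
    (B : Matrix μ κ R) : Prop :=
  LinearMap.ker A.vecMulLinear = LinearMap.range B.vecMulLinear

/-- the quotient of the free module on ι (degree 0) by N has a linear free resolution -/
def Lin (K : Type) [Field K] {R : Type} [CommRing R] [Algebra K R] (V : Set R) {ι : Type}
    (N : Submodule R (ι → R)) : Prop :=
  ∃ (b : ℕ → ℕ) (d0 : Matrix (Fin (b 0)) ι R) (d : ∀ i, Matrix (Fin (b (i + 1))) (Fin (b i)) R),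
    (∀ j k, d0 j k ∈ Submodule.span K V) ∧ (∀ i j k, d i j k ∈ Submodule.span K V) ∧
    LinearMap.range d0.vecMulLinear = N ∧ Ex d0 (d 0) ∧ ∀ i, Ex (d i) (d (i + 1))

/-- Koszul ring, and the quotient M by N has m M nonzero and m^2 M = 0 -/
def Short (K : Type) [Field K] {R : Type} [CommRing R] [Algebra K R] (V : Set R) {ι : Type}
    (N : Submodule R (ι → R)) : Prop :=
  Lin K V (pw V 1 (Fin 1)) ∧ ¬ (pw V 1 ι ≤ N) ∧ pw V 2 ι ≤ N

def Valid (K : Type) [Field K] (x : Inp) : Prop :=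
  (∀ g ∈ x.2.1, ∃ e, 2 ≤ e ∧ (pol K x.1 g).IsHomogeneous e) ∧
  (∀ r ∈ x.2.2.2, ∃ e, 1 ≤ e ∧ ∀ g ∈ r, (pol K x.1 g).IsHomogeneous e) ∧
  Short K (vars K x) (rels K x)

open Pool.Agent.H.MP_fc7d68_al

theorem hom_pol (K : Type) [Field K] (n e : ℕ) (g : Pol) (h : ∀ t ∈ g, t.2.length = e) :
    (pol K n g).IsHomogeneous e := by
  have m : ∀ l : List ℕ, ((l.map fun j => if h : j < n then X ⟨j, h⟩ else 0).prod :
      MvPolynomial (Fin n) K).IsHomogeneous l.length := by
    intro l
    induction l with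
    | nil => exact isHomogeneous_one _ _
    | cons j l ih =>
      rw [List.map_cons, List.prod_cons, List.length_cons, add_comm]
      refine IsHomogeneous.mul ?_ ih
      split_ifs
      · exact isHomogeneous_X _ _
      · exact isHomogeneous_zero _ _ _
  induction g with
  | nil => exact isHomogeneous_zero _ _ _
  | cons t g ih =>
    refine IsHomogeneous.add ?_ (ih fun t ht => h t (List.mem_cons_of_mem _ ht))
    have := (isHomogeneous_C (Fin n) (t.1 : K)).mul (m t.2)
    rwa [zero_add, h t List.mem_cons_self] at this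

theorem pol_app (K : Type) [Field K] (n : ℕ) (g g' : Pol) :
    pol K n (g ++ g') = pol K n g + pol K n g' := by simp [pol]

theorem mem_gens {B : ℕ} {g} : g ∈ gens B ↔
    ∃ j < 3, ∃ x < B, ∃ y < B, [((1 : ℤ), [x + B * j, y + B * j])] = g := by
  simp only [gens, List.mem_flatMap, List.mem_map, List.mem_range]

theorem mem_rows {T0 T1} {B A : ℕ} {r} : r ∈ rows T0 T1 B A ↔
    (∃ j < 3, ∃ x < B, ∃ p < A, row1 T0 T1 B A j x p = r) ∨
    ∃ v < 3 * B, ∃ v' < 3 * B, ∃ p < A, row2 A v v' p = r := by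
  simp only [rows, List.mem_append, List.mem_flatMap, List.mem_map, List.mem_range]

theorem short_of {K R X Q : Type} [Field K] [CommRing R] [Algebra K R] [Fintype X] [DecidableEq X]
    [Fintype Q] [DecidableEq Q] (S : Sys K R X) {φ : (Fin 3 × X) × Q → Option ((Fin 3 × X) × Q)}
    (hφ : ∀ u w, φ u = some w → φ w = some w) (u) (hu : φ u = some u) {V : Set R}
    {N : Submodule R (Q → R)} (hV : V = Set.range S.ξ) (hN : N = Nn S φ) :
    Short K V N ∧ (Lin K V N ↔ LinRes S.L (Nn S φ)) := by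
  subst hV hN
  have hL : ∀ {ι : Type} (N : Submodule R (ι → R)),
      Lin K (Set.range S.ξ) N ↔ LinRes S.L N := fun N => by
    unfold Lin LinRes Ex Sys.L
    rfl
  refine ⟨⟨?_, ?_, ?_⟩, hL _⟩
  · rw [hL, pw, pow_one]; exact koszul S
  · rw [pw, pow_one]; exact not_le S hφ _ hu
  · have := sq_le S φ
    rw [pow_two] at this
    rw [pw, Submodule.pow_succ, Submodule.pow_one]
    exact this

attribute [local irreducible] mm ph phT gens rows row1 row2

theorem key (K : Type) [Field K] {T0 T1 : List (List ℕ)} (hl : T0.length = T1.length) :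
    Valid K (inp T0 T1) ∧ (Lin K (vars K (inp T0 T1)) (rels K (inp T0 T1)) ↔ ¬ Sl T0 T1) := by
  set B := mm T0 T1 ^ 8 + 1 with hB
  set A := mm T0 T1 ^ 4 with hA
  let e : Fin 3 × Fin B ≃ Fin (3 * B) := finProdFinEquiv
  have ev : ∀ a : Fin 3 × Fin B, (e a).1 = a.2.1 + B * a.1.1 := fun _ => rfl
  have p1 : ∀ (c : ℤ) (v : Fin (3 * B)), pol K (3 * B) [(c, [v.1])] = C (c : K) * X v := by
    intro c v; simp [pol]
  have p2 : ∀ (v v' : Fin (3 * B)), pol K (3 * B) [(1, [v.1, v'.1])] = X v * X v' := by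
    intro v v'; simp [pol]
  have p0 : pol K (3 * B) [] = 0 := rfl
  obtain ⟨S, hS⟩ := ex_sys K e {f | ∃ g ∈ gens B, f = pol K (3 * B) g} (by
    intro g
    simp only [mem_gens, Set.mem_ofPred_eq]
    constructor
    · rintro ⟨_, ⟨j, hj, x, hx, y, hy, rfl⟩, rfl⟩
      exact ⟨(⟨j, hj⟩, ⟨x, hx⟩), (⟨j, hj⟩, ⟨y, hy⟩), rfl,
        p2 (e (⟨j, hj⟩, ⟨x, hx⟩)) (e (⟨j, hj⟩, ⟨y, hy⟩))⟩
    · rintro ⟨⟨j, x⟩, ⟨j', y⟩, h, rfl⟩
      obtain rfl : j = j' := h
      exact ⟨_, ⟨j, j.2, x, x.2, y, y.2, rfl⟩, (p2 (e (j, x)) (e (j, y))).symm⟩)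
  have hr : vars K (inp T0 T1) = Set.range S.ξ := by
    ext z
    constructor
    · rintro ⟨v, rfl⟩
      obtain ⟨a, rfl⟩ := e.surjective v
      exact ⟨a, hS a⟩
    · rintro ⟨a, rfl⟩
      exact ⟨e a, (hS a).symm⟩
  have gd : ∀ (f : ℕ → Pol) (k : Fin A), ((List.range A).map f).getD k [] = f k := by
    intro f k
    rw [List.getD_eq_getElem _ _ (by simp)]
    simp
  have r1 : ∀ u : (Fin 3 × Fin B) × Fin A, (fun k : Fin A => Ideal.Quotient.mk
      (Ideal.span {f | ∃ g ∈ gens B, f = pol K (3 * B) g})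
      (pol K (3 * B) ((row1 T0 T1 B A u.1.1 u.1.2 u.2).getD k []))) =
      rel S (phT T0 T1) u := by
    intro u
    funext k
    rw [row1, gd, pol_app, map_add, ph_rng hl, rel, Pi.sub_apply, sub_eq_add_neg]
    congr 1
    · simp only [vec, Pi.single_apply, Fin.val_inj, ← ev, hS]
      split_ifs
      · rw [p1]; simp
      · rfl
    · cases phT T0 T1 u with
      | none => simp [p0]
      | some w =>
        simp only [vec, Pi.single_apply, Fin.val_inj, hS, Option.map_some, Option.getD_some,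
          Option.elim]
        split_ifs
        · rw [← ev, p1]; simp
        · simp [p0]
  have r2 : ∀ (a b : Fin 3 × Fin B) (p : Fin A), (fun k : Fin A => Ideal.Quotient.mk
      (Ideal.span {f | ∃ g ∈ gens B, f = pol K (3 * B) g})
      (pol K (3 * B) ((row2 A (e a) (e b) p).getD k []))) =
      Pi.single p (S.ξ a * S.ξ b) := by
    intro a b p
    funext k
    rw [row2, gd]
    simp only [Pi.single_apply, Fin.val_inj, hS]
    split_ifs
    · rw [p2]; rfl
    · rfl
  have hN : rels K (inp T0 T1) = Nn S (phT T0 T1) := by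
    refine congrArg (Submodule.span _) (Set.ext fun v => ?_)
    change (∃ r ∈ rows T0 T1 B A, v = fun k : Fin A => Ideal.Quotient.mk
      (Ideal.span {f | ∃ g ∈ gens B, f = pol K (3 * B) g}) (pol K (3 * B) (r.getD k []))) ↔ _
    simp only [mem_rows]
    constructor
    · rintro ⟨_, ⟨j, hj, x, hx, p, hp, rfl⟩ | ⟨v, hv, v', hv', p, hp, rfl⟩, rfl⟩
      · exact .inl ⟨_, (r1 ((⟨j, hj⟩, ⟨x, hx⟩), ⟨p, hp⟩)).symm⟩
      · obtain ⟨a, ha⟩ := e.surjective ⟨v, hv⟩
        obtain ⟨b, hb⟩ := e.surjective ⟨v', hv'⟩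
        have := r2 a b ⟨p, hp⟩
        rw [ha, hb] at this
        exact .inr ⟨(a, b, ⟨p, hp⟩), this.symm⟩
    · rintro (⟨u, rfl⟩ | ⟨⟨a, b, p⟩, rfl⟩)
      · exact ⟨_, .inl ⟨_, u.1.1.2, _, u.1.2.2, _, u.2.2, rfl⟩, (r1 u).symm⟩
      · exact ⟨_, .inr ⟨_, (e a).2, _, (e b).2, _, p.2, rfl⟩, (r2 a b p).symm⟩
  let S' : Sys K (Rg K (inp T0 T1)) (XX T0 T1) := S
  have hs := short_of S' (good hl).p1 _ (good hl).p6 (V := vars K (inp T0 T1))
    (N := rels K (inp T0 T1)) hr hN
  refine ⟨⟨?_, ?_, hs.1⟩, hs.2.trans (lin_iff hl S')⟩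
  · intro g hg
    refine ⟨2, le_rfl, hom_pol _ _ _ _ ?_⟩
    obtain ⟨j, -, x, -, y, -, rfl⟩ := mem_gens.1 hg
    simp
  · intro r hr
    rcases mem_rows.1 hr with ⟨j, -, x, -, p, -, rfl⟩ | ⟨v, -, v', -, p, -, rfl⟩
    · refine ⟨1, le_rfl, fun g hg => hom_pol _ _ _ _ ?_⟩
      simp only [row1, List.mem_map] at hg
      obtain ⟨k, -, rfl⟩ := hg
      intro t ht
      rcases List.mem_append.1 ht with ht | ht
      · split_ifs at ht <;> simp_all
      · cases h : ph T0 T1 j x p with
        | none => simp [h] at ht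
        | some w =>
          simp only [h, Option.map_some, Option.getD_some] at ht
          split_ifs at ht <;> simp_all
    · refine ⟨2, by omega, fun g hg => hom_pol _ _ _ _ ?_⟩
      simp only [row2, List.mem_map] at hg
      obtain ⟨k, -, rfl⟩ := hg
      split_ifs <;> simp

attribute [local irreducible] inp Partrec Computable

theorem result (K : Type) [Field K] :
    ¬ ∃ f : Inp →. Bool, Partrec f ∧
      ∀ x, Valid K x → ∃ b ∈ f x, (b = true ↔ Lin K (vars K x) (rels K x)) := by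
  rintro ⟨f, hf, h⟩
  obtain ⟨H, G, hG, h1, h2⟩ := Pool.Agent.H.MP_d7c5de_lc.undec_sol
  have h3 : ∀ n, ∃ b ∈ f (inp H (G n)), (b = true ↔ ¬ Sl H (G n)) := fun n => by
    rw [← (key K (h1 n).1).2]
    exact h _ (key K (h1 n).1).1
  choose b hb hb' using h3
  have hi : Computable fun n => inp H (G n) := (pr_inp (Primrec.const H) hG).to_comp
  have hc : Computable b := Partrec.of_eq_tot (f := fun n => f (inp H (G n))) (hf.comp hi) hb
  have : ComputablePred fun n => b n = true :=
    ComputablePred.computable_iff.2 ⟨b, hc, rfl⟩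
  refine h2 (this.not.of_eq fun n => ?_)
  rw [hb', not_not]
  rfl

end Pool.Agent.Results.MP_fc7d68_al.Undec
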